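import Pool.Agent.H126R2.NC.L4

set_option autoImplicit false
set_option linter.unusedSectionVars false

/-!
Sums of even edge sets; the local conditions for circuit covers.
-/

namespace Pool.Agent.Q213.SC

open Finset
open Pool.Agent.H126R2.CDC (MGraph)
open Pool.Agent.H126R2.NC (InCone InLat InIntCone cone_lat_of_intCone)

variable {V E : Type} [Fintype V] [DecidableEq V] [Fintype E] [DecidableEq E]

/-- the weighting is a sum of even edge sets -/
def EC (G : MGraph V E) (p : E → ℕ) : Prop :=
  ∃ F : Multiset (Finset E), (∀ D ∈ F, G.IsEven D) ∧ ∀ e, F.countP (fun D => e ∈ D) = p e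

lemma EC.zero (G : MGraph V E) : EC G (fun _ => 0) := ⟨0, by simp, by simp⟩

lemma EC.add {G : MGraph V E} {p q : E → ℕ} (hp : EC G p) (hq : EC G q) :
    EC G (fun e => p e + q e) := by
  obtain ⟨F1, h1, h2⟩ := hp
  obtain ⟨F2, h3, h4⟩ := hq
  refine ⟨F1 + F2, ?_, ?_⟩
  · intro D hD
    rcases Multiset.mem_add.1 hD with h | h
    · exact h1 D h
    · exact h3 D h
  · intro e
    rw [Multiset.countP_add, h2, h4]

lemma EC.congr {G : MGraph V E} {p q : E → ℕ} (hp : EC G p) (h : ∀ e, p e = q e) : EC G q := by
  have : p = q := funext h
  rwa [this] at hp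

lemma EC.nsmul {G : MGraph V E} {p : E → ℕ} (hp : EC G p) (n : ℕ) :
    EC G (fun e => n * p e) := by
  induction n with
  | zero => exact (EC.zero G).congr (fun e => by simp)
  | succ n ih => exact (ih.add hp).congr (fun e => by ring)

lemma EC.sum {G : MGraph V E} {ι : Type} (s : Finset ι) (c : ι → E → ℕ)
    (h : ∀ i ∈ s, EC G (c i)) : EC G (fun e => ∑ i ∈ s, c i e) := by
  classical
  induction s using Finset.induction_on with
  | empty => exact (EC.zero G).congr (fun e => by simp)
  | insert i s hi ih =>
    have h1 := (h i (Finset.mem_insert_self _ _)).add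
      (ih (fun j hj => h j (Finset.mem_insert_of_mem hj)))
    exact h1.congr (fun e => by rw [Finset.sum_insert hi])

lemma EC.of_le_one {G : MGraph V E} (c : E → ℕ) (h1 : ∀ e, c e ≤ 1)
    (hev : ∀ z, Even (∑ e, c e * G.ep e z)) : EC G c := by
  refine ⟨{univ.filter (fun e => c e = 1)}, ?_, ?_⟩
  · intro D hD
    rw [Multiset.mem_singleton] at hD
    subst hD
    intro z
    rw [G.deg_eq_sum, Finset.sum_filter]
    convert hev z using 2 with e
    have := h1 e
    by_cases h : c e = 1
    · simp [h]
    · have : c e = 0 := by omega
      simp [this]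
  · intro e
    have := h1 e
    by_cases h : c e = 1
    · rw [h, Multiset.countP_eq_card.2]
      · simp
      · intro D hD
        rw [Multiset.mem_singleton] at hD
        subst hD
        simp [h]
    · have h3 : c e = 0 := by omega
      rw [h3, Multiset.countP_eq_zero]
      intro D hD
      rw [Multiset.mem_singleton] at hD
      subst hD
      simp [h]

lemma EC.cover {G : MGraph V E} {p : E → ℕ} (hp : EC G p) : InIntCone G p := by
  obtain ⟨F, h1, h2⟩ := hp
  have key : ∀ F : Multiset (Finset E), (∀ D ∈ F, G.IsEven D) →
      ∃ F' : Multiset (Finset E), (∀ C ∈ F', G.IsCircuit C) ∧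
        ∀ e, F'.countP (fun C => e ∈ C) = F.countP (fun D => e ∈ D) := by
    intro F
    induction F using Multiset.induction_on with
    | empty => intro _; exact ⟨0, by simp, by simp⟩
    | cons D F ih =>
      intro h
      obtain ⟨F1, h3, h4⟩ := ih (fun D' hD' => h D' (Multiset.mem_cons_of_mem hD'))
      obtain ⟨F2, h5, h6⟩ := G.decompose _ D rfl (h D (Multiset.mem_cons_self _ _))
      refine ⟨F1 + F2, ?_, ?_⟩
      · intro C hC
        rcases Multiset.mem_add.1 hC with h | h
        · exact h3 C h
        · exact h5 C h
      · intro e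
        rw [Multiset.countP_add, h4, h6, Multiset.countP_cons]
  obtain ⟨F', h3, h4⟩ := key F h1
  exact ⟨F', h3, fun e => (h4 e).trans (h2 e)⟩

/-- the edges at `v` that are not loops -/
def star (G : MGraph V E) (v : V) : Finset E :=
  univ.filter (fun e => v ∈ G.ends e ∧ ¬ (G.ends e).IsDiag)

lemma ep_of_star {G : MGraph V E} {v : V} {e : E} (h : e ∈ star G v) : G.ep e v = 1 := by
  unfold star at h
  rw [Finset.mem_filter] at h
  obtain ⟨_, h1, h2⟩ := h
  unfold MGraph.ep
  rw [if_pos h1, if_neg]
  intro h3
  apply h2
  rw [h3]
  simp

lemma ep_even_of_notMem_star {G : MGraph V E} {v : V} {e : E} (h : e ∉ star G v) :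
    Even (G.ep e v) := by
  unfold star at h
  rw [Finset.mem_filter] at h
  by_cases h1 : v ∈ G.ends e
  · have h2 : (G.ends e).IsDiag := by
      by_contra h2
      exact h ⟨Finset.mem_univ _, h1, h2⟩
    unfold MGraph.ep
    rw [if_pos h1, if_pos]
    · exact ⟨1, rfl⟩
    · induction h3 : G.ends e using Sym2.ind with
      | _ x y =>
        rw [h3] at h1 h2
        have h4 : x = y := h2
        subst h4
        have : v = x := by simpa using h1
        rw [this]
  · rw [G.ep_eq_zero h1]
    exact ⟨0, rfl⟩

/-- the local conditions: at every vertex the weights of the edges that are not loops have an even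
sum, and no such edge weighs more than the other ones together -/
def Loc (G : MGraph V E) (p : E → ℕ) : Prop :=
  (∀ v, Even (∑ f ∈ star G v, p f)) ∧ ∀ v, ∀ e ∈ star G v, 2 * p e ≤ ∑ f ∈ star G v, p f

lemma even_ep_sum {G : MGraph V E} {p : E → ℕ} (z : V) :
    Even (∑ e, p e * G.ep e z) ↔ Even (∑ f ∈ star G z, p f) := by
  rw [← Finset.sum_filter_add_sum_filter_not univ (fun e => e ∈ star G z)]
  have h1 : ∑ e ∈ univ.filter (fun e => e ∈ star G z), p e * G.ep e z = ∑ f ∈ star G z, p f := by
    rw [Finset.filter_mem_eq_inter, Finset.univ_inter]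
    apply Finset.sum_congr rfl
    intro e he
    rw [ep_of_star he, mul_one]
  have h2 : Even (∑ e ∈ univ.filter (fun e => e ∉ star G z), p e * G.ep e z) := by
    apply Finset.even_sum
    intro e he
    exact (ep_even_of_notMem_star (Finset.mem_filter.1 he).2).mul_left _
  rw [h1, Nat.even_add]
  constructor
  · intro h; exact h.2 h2
  · intro h; exact ⟨fun _ => h2, fun _ => h⟩

lemma loc_of_cone_lat {G : MGraph V E} {p : E → ℕ} (h1 : InCone G p) (h2 : InLat G p) :
    Loc G p := by
  constructor
  · intro z
    rw [← even_ep_sum]
    have key : ∀ x ∈ AddSubgroup.closure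
        {x : E → ℤ | ∃ C, G.IsCircuit C ∧ x = fun e => if e ∈ C then 1 else 0},
        Even (∑ e, x e * (G.ep e z : ℤ)) := by
      intro x hx
      induction hx using AddSubgroup.closure_induction with
      | mem x hx =>
        obtain ⟨C, hC, rfl⟩ := hx
        have h3 := hC.isEven z
        rw [G.deg_eq_sum] at h3
        have h4 : ∑ e, (if e ∈ C then (1 : ℤ) else 0) * (G.ep e z : ℤ) =
            ((∑ e ∈ C, G.ep e z : ℕ) : ℤ) := by
          push_cast
          rw [← Finset.sum_filter_add_sum_filter_not univ (fun e => e ∈ C)]
          rw [Finset.sum_congr rfl (g := fun e => (G.ep e z : ℤ)) (fun e he => by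
              rw [if_pos (Finset.mem_filter.1 he).2, one_mul])]
          rw [Finset.sum_eq_zero (s := univ.filter (fun e => ¬ e ∈ C)) (fun e he => by
              rw [if_neg (Finset.mem_filter.1 he).2, zero_mul])]
          rw [add_zero, Finset.filter_mem_eq_inter, Finset.univ_inter]
        rw [h4]
        exact_mod_cast h3
      | zero => simp
      | add x y _ _ hx hy =>
        have : ∑ e, (x + y) e * (G.ep e z : ℤ) =
            ∑ e, x e * (G.ep e z : ℤ) + ∑ e, y e * (G.ep e z : ℤ) := by
          rw [← Finset.sum_add_distrib]
          apply Finset.sum_congr rfl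
          intro e _
          simp only [Pi.add_apply]
          ring
        rw [this]
        exact hx.add hy
      | neg x _ hx =>
        have : ∑ e, (-x) e * (G.ep e z : ℤ) = -∑ e, x e * (G.ep e z : ℤ) := by
          rw [← Finset.sum_neg_distrib]
          apply Finset.sum_congr rfl
          intro e _
          simp only [Pi.neg_apply]
          ring
        rw [this]
        exact hx.neg
    have h3 := key _ h2
    have h4 : ∑ e, (p e : ℤ) * (G.ep e z : ℤ) = ((∑ e, p e * G.ep e z : ℕ) : ℤ) := by
      push_cast; rfl
    rw [h4] at h3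
    exact_mod_cast h3
  · intro z e he
    obtain ⟨w, h0, hz, hw⟩ := h1
    have h3 : (2 * p e : ℝ) ≤ ∑ f ∈ star G z, (p f : ℝ) := by
      have h4 : ∑ f ∈ star G z, (p f : ℝ) =
          ∑ C : Finset E, w C * ∑ f ∈ star G z, (if f ∈ C then 1 else 0) := by
        rw [Finset.sum_congr rfl (fun f _ => hw f), Finset.sum_comm]
        apply Finset.sum_congr rfl
        intro C _
        rw [Finset.mul_sum]
      rw [h4, hw e, Finset.mul_sum]
      apply Finset.sum_le_sum
      intro C _
      by_cases hC : G.IsCircuit C
      · rw [mul_left_comm]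
        apply mul_le_mul_of_nonneg_left _ (h0 C)
        by_cases heC : e ∈ C
        · rw [if_pos heC]
          -- another edge
          have h5 : G.deg C z = 2 := by
            rcases hC.2.1 z with h | h
            · exfalso
              rw [G.deg_eq_sum] at h
              have h6 : G.ep e z ≤ ∑ f ∈ C, G.ep f z :=
                Finset.single_le_sum (f := fun f => G.ep f z) (fun _ _ => Nat.zero_le _) heC
              rw [ep_of_star he] at h6
              omega
            · exact h
          rw [G.deg_eq_sum, ← Finset.add_sum_erase _ _ heC, ep_of_star he] at h5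
          have h6 : ∑ f ∈ C.erase e, G.ep f z = 1 := by omega
          have h7 : ∃ f ∈ C.erase e, f ∈ star G z := by
            by_contra hcon
            push Not at hcon
            have : Even (∑ f ∈ C.erase e, G.ep f z) :=
              Finset.even_sum _ (fun f hf => ep_even_of_notMem_star (hcon f hf))
            rw [h6] at this
            exact absurd this (by decide)
          obtain ⟨f, hf1, hf2⟩ := h7
          rw [Finset.mem_erase] at hf1
          rw [← Finset.add_sum_erase _ _ he, ← Finset.add_sum_erase _ _
            (show f ∈ (star G z).erase e from Finset.mem_erase.2 ⟨hf1.1, hf2⟩), if_pos heC,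
            if_pos hf1.2]
          have : (0 : ℝ) ≤ ∑ x ∈ ((star G z).erase e).erase f, (if x ∈ C then (1 : ℝ) else 0) :=
            Finset.sum_nonneg (fun x _ => by split_ifs <;> norm_num)
          linarith
        · rw [if_neg heC, mul_zero]
          exact Finset.sum_nonneg (fun x _ => by split_ifs <;> norm_num)
      · rw [hz C hC]
        simp
    exact_mod_cast h3

/-- the combinatorial lemma: decomposing an integer vector -/
lemma semi {Q : Type} [Fintype Q] [DecidableEq Q] (M N : Finset Q)
    (A : (Q → ℕ) → Prop) (h0 : A 0) (hadd : ∀ a b, A a → A b → A (a + b))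
    (h1 : ∀ i ∈ M, ∀ i' ∈ M, i ≠ i' → A (Pi.single i 1 + Pi.single i' 1))
    (h2 : ∀ i ∈ M, ∀ j ∈ N, A (Pi.single i 2 + Pi.single j 1))
    (h3 : ∀ j, j ∉ M → A (Pi.single j 1)) (hMN : Disjoint M N) :
    ∀ (n : ℕ) (a : Q → ℕ), ∑ q, a q = n → Even (∑ i ∈ M, a i) →
      (∀ i ∈ M, 2 * a i ≤ ∑ i ∈ M, a i + 2 * ∑ j ∈ N, a j) → A a := by
  intro n
  induction n using Nat.strong_induction_on with
  | _ n ih =>
  intro a hn hev hle
  -- subtracting
  have sub : ∀ b c : Q → ℕ, a = b + c → 0 < ∑ q, c q → A c → Even (∑ i ∈ M, b i) →
      (∀ i ∈ M, 2 * b i ≤ ∑ i ∈ M, b i + 2 * ∑ j ∈ N, b j) → A a := by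
    intro b c hbc hc hAc hb1 hb2
    have h4 : ∑ q, b q + ∑ q, c q = n := by
      rw [← hn, hbc, ← Finset.sum_add_distrib]; rfl
    have h5 := ih (∑ q, b q) (by omega) b rfl hb1 hb2
    rw [hbc]
    exact hadd _ _ h5 hAc
  have ssum : ∀ (S : Finset Q) (i : Q) (k : ℕ), ∑ q ∈ S, (Pi.single i k : Q → ℕ) q =
      if i ∈ S then k else 0 := by
    intro S i k
    simp [Finset.sum_pi_single']
  by_cases hM : ∃ i ∈ M, 0 < a i
  · -- maximal element
    obtain ⟨i0, hi0, hmax⟩ := Finset.exists_max_image M a ⟨hM.choose, hM.choose_spec.1⟩
    have hi0p : 0 < a i0 := lt_of_lt_of_le hM.choose_spec.2 (hmax _ hM.choose_spec.1)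
    by_cases hM2 : ∃ i ∈ M.erase i0, 0 < a i
    · obtain ⟨i1, hi1, hmax1⟩ := Finset.exists_max_image (M.erase i0) a
        ⟨hM2.choose, hM2.choose_spec.1⟩
      have hi1p : 0 < a i1 := lt_of_lt_of_le hM2.choose_spec.2 (hmax1 _ hM2.choose_spec.1)
      rw [Finset.mem_erase] at hi1
      have hne : i1 ≠ i0 := hi1.1
      let c : Q → ℕ := Pi.single i0 1 + Pi.single i1 1
      let b : Q → ℕ := a - c
      have hbc : a = b + c := by
        ext q
        simp only [b, c, Pi.add_apply, Pi.sub_apply]
        by_cases hq0 : q = i0
        · subst hq0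
          rw [Pi.single_eq_same, Pi.single_eq_of_ne (Ne.symm hne)]
          omega
        · by_cases hq1 : q = i1
          · subst hq1
            rw [Pi.single_eq_same, Pi.single_eq_of_ne hq0]
            omega
          · rw [Pi.single_eq_of_ne hq0, Pi.single_eq_of_ne hq1]
            omega
      have hS : ∀ S : Finset Q, ∑ q ∈ S, a q = ∑ q ∈ S, b q +
          ((if i0 ∈ S then 1 else 0) + (if i1 ∈ S then 1 else 0)) := by
        intro S
        rw [← ssum S i0 1, ← ssum S i1 1, ← Finset.sum_add_distrib, ← Finset.sum_add_distrib]
        exact Finset.sum_congr rfl (fun q _ => congrFun hbc q)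
      have hSM := hS M
      rw [if_pos hi0, if_pos hi1.2] at hSM
      have hi0N : i0 ∉ N := Finset.disjoint_left.1 hMN hi0
      have hi1N : i1 ∉ N := Finset.disjoint_left.1 hMN hi1.2
      have hSN := hS N
      rw [if_neg hi0N, if_neg hi1N] at hSN
      have hbev : Even (∑ q ∈ M, b q) := by
        rw [hSM, Nat.even_add] at hev
        exact hev.2 ⟨1, rfl⟩
      refine sub b c hbc ?_ (h1 i0 hi0 i1 hi1.2 (Ne.symm hne)) hbev ?_
      · have := ssum univ i0 1
        have h5 := ssum univ i1 1
        rw [if_pos (Finset.mem_univ _)] at this h5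
        simp only [c, Pi.add_apply, Finset.sum_add_distrib, this, h5]
        norm_num
      · intro i hi
        by_cases hii0 : i = i0
        · subst hii0
          have h6 := hle i hi
          have h7 : a i = b i + 1 := by
            rw [congrFun hbc i]
            simp only [c, Pi.add_apply]
            rw [Pi.single_eq_same, Pi.single_eq_of_ne (Ne.symm hne)] <;> omega
          omega
        · by_cases hii1 : i = i1
          · subst hii1
            have h6 := hle i hi
            have h7 : a i = b i + 1 := by
              rw [congrFun hbc i]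
              simp only [c, Pi.add_apply]
              rw [Pi.single_eq_same, Pi.single_eq_of_ne hii0] <;> omega
            omega
          · -- a third element
            have h7 : a i = b i := by
              rw [congrFun hbc i]
              simp only [c, Pi.add_apply]
              rw [Pi.single_eq_of_ne hii0, Pi.single_eq_of_ne hii1]
              omega
            have h8 : a i ≤ a i1 := hmax1 i (Finset.mem_erase.2 ⟨hii0, hi⟩)
            have h9 : a i1 ≤ a i0 := hmax i1 hi1.2
            have h10 : b i0 + 1 = a i0 := by
              rw [congrFun hbc i0]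
              simp only [c, Pi.add_apply]
              rw [Pi.single_eq_same, Pi.single_eq_of_ne (Ne.symm hne)] <;> omega
            have h11 : b i1 + 1 = a i1 := by
              rw [congrFun hbc i1]
              simp only [c, Pi.add_apply]
              rw [Pi.single_eq_same, Pi.single_eq_of_ne hne] <;> omega
            have h12 : b i + b i0 + b i1 ≤ ∑ q ∈ M, b q := by
              have h13 : ({i, i0, i1} : Finset Q) ⊆ M := by
                intro q hq
                simp only [Finset.mem_insert, Finset.mem_singleton] at hq
                rcases hq with h | h | h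
                · rw [h]; exact hi
                · rw [h]; exact hi0
                · rw [h]; exact hi1.2
              have h14 := Finset.sum_le_sum_of_subset (f := b) h13
              rw [Finset.sum_insert (by simp [hii0, hii1]), Finset.sum_insert (by
                simp [Ne.symm hne]), Finset.sum_singleton] at h14
              omega
            rcases Nat.even_or_odd' (∑ q ∈ M, b q) with ⟨k, hk | hk⟩
            · omega
            · exfalso
              obtain ⟨l, hl⟩ := hbev
              omega
    · -- only `i0`
      push Not at hM2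
      have hsM : ∑ q ∈ M, a q = a i0 := by
        rw [← Finset.add_sum_erase _ _ hi0]
        rw [Finset.sum_eq_zero (s := M.erase i0)
          (fun q hq => Nat.le_zero.1 (hM2 q hq))]
        simp
      have h4 := hle i0 hi0
      rw [hsM] at h4 hev
      have h5 : 0 < ∑ j ∈ N, a j := by omega
      obtain ⟨j, hj, hjp⟩ : ∃ j ∈ N, 0 < a j := by
        by_contra hcon
        push Not at hcon
        have : ∑ j ∈ N, a j = 0 := Finset.sum_eq_zero (fun q hq => Nat.le_zero.1 (hcon q hq))
        omega
      have hj0 : j ≠ i0 := by
        rintro rfl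
        exact Finset.disjoint_left.1 hMN hi0 hj
      have h2a : 2 ≤ a i0 := by
        obtain ⟨k, hk⟩ := hev
        omega
      let c : Q → ℕ := Pi.single i0 2 + Pi.single j 1
      let b : Q → ℕ := a - c
      have hbc : a = b + c := by
        ext q
        simp only [b, c, Pi.add_apply, Pi.sub_apply]
        by_cases hq0 : q = i0
        · subst hq0
          rw [Pi.single_eq_same, Pi.single_eq_of_ne (Ne.symm hj0)]
          omega
        · by_cases hq1 : q = j
          · subst hq1
            rw [Pi.single_eq_same, Pi.single_eq_of_ne hq0]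
            omega
          · rw [Pi.single_eq_of_ne hq0, Pi.single_eq_of_ne hq1]
            omega
      have hS : ∀ S : Finset Q, ∑ q ∈ S, a q = ∑ q ∈ S, b q +
          ((if i0 ∈ S then 2 else 0) + (if j ∈ S then 1 else 0)) := by
        intro S
        rw [← ssum S i0 2, ← ssum S j 1, ← Finset.sum_add_distrib, ← Finset.sum_add_distrib]
        exact Finset.sum_congr rfl (fun q _ => congrFun hbc q)
      have hjM : j ∉ M := fun h => Finset.disjoint_left.1 hMN h hj
      have hi0N : i0 ∉ N := Finset.disjoint_left.1 hMN hi0
      have hSM := hS M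
      rw [if_pos hi0, if_neg hjM, hsM] at hSM
      have hSN := hS N
      rw [if_neg hi0N, if_pos hj] at hSN
      refine sub b c hbc ?_ (h2 i0 hi0 j hj) ?_ ?_
      · have h6 := ssum univ i0 2
        have h7 := ssum univ j 1
        rw [if_pos (Finset.mem_univ _)] at h6 h7
        simp only [c, Pi.add_apply, Finset.sum_add_distrib, h6, h7]
        norm_num
      · obtain ⟨k, hk⟩ := hev
        exact ⟨k - 1, by omega⟩
      · intro i hi
        by_cases hii0 : i = i0
        · subst hii0
          have h7 : a i = b i + 2 := by
            rw [congrFun hbc i]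
            simp only [c, Pi.add_apply]
            rw [Pi.single_eq_same, Pi.single_eq_of_ne (Ne.symm hj0)] <;> omega
          omega
        · have h8 : a i ≤ 0 := hM2 i (Finset.mem_erase.2 ⟨hii0, hi⟩)
          have h9 : b i ≤ a i := by
            rw [congrFun hbc i]
            simp
          omega
  · push Not at hM
    -- no element of `M`
    by_cases hall : ∃ j, 0 < a j
    · obtain ⟨j, hj⟩ := hall
      have hjM : j ∉ M := fun h => by
        have := hM j h
        omega
      let c : Q → ℕ := Pi.single j 1
      let b : Q → ℕ := a - c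
      have hbc : a = b + c := by
        ext q
        simp only [b, c, Pi.add_apply, Pi.sub_apply]
        by_cases hq1 : q = j
        · subst hq1
          rw [Pi.single_eq_same]
          omega
        · rw [Pi.single_eq_of_ne hq1]
          omega
      have hb0 : ∀ i ∈ M, b i = 0 := by
        intro i hi
        have h8 := hM i hi
        have h9 : b i ≤ a i := by
          rw [congrFun hbc i]
          simp
        omega
      refine sub b c hbc ?_ (h3 j hjM) ?_ ?_
      · have h6 := ssum univ j 1
        rw [if_pos (Finset.mem_univ _)] at h6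
        simp only [c, h6]
        norm_num
      · rw [Finset.sum_eq_zero hb0]
        exact ⟨0, rfl⟩
      · intro i hi
        rw [hb0 i hi]
        omega
    · push Not at hall
      have : a = 0 := by
        ext q
        exact Nat.le_zero.1 (hall q)
      rw [this]
      exact h0

end Pool.Agent.Q213.SC
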