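import Pool.Agent.Q213.SC.Main

set_option autoImplicit false
set_option linter.unusedSectionVars false

/-!
Pull back along coverings.
-/

namespace Pool.Agent.Q213.SC

open Finset
open Pool.Agent.H126R2.CDC (MGraph)
open Pool.Agent.H126R2.NC (InCone InLat InIntCone cone_lat_of_intCone)

variable {V E : Type} [Fintype V] [DecidableEq V] [Fintype E] [DecidableEq E]
variable {V' E' : Type} [Fintype V'] [DecidableEq V'] [Fintype E'] [DecidableEq E']
variable {Γ : Type} [Group Γ] [Fintype Γ] [MulAction Γ V] [MulAction Γ E]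

lemma deg_singleton (G : MGraph V E) (e : E) (v : V) : G.deg {e} v = G.ep e v := by
  rw [G.deg_eq_sum, Finset.sum_singleton]

lemma EC.pull {G : MGraph V E} {G' : MGraph V' E'} {φ : V' → V} {ψ : E' → E}
    (hcov : ∀ v' e, G'.deg (univ.filter (fun e' => ψ e' = e)) v' = G.deg {e} (φ v'))
    {p : E → ℕ} (h : EC G p) : EC G' (fun e' => p (ψ e')) := by
  obtain ⟨F, h1, h2⟩ := h
  refine ⟨F.map (fun D => univ.filter (fun e' => ψ e' ∈ D)), ?_, ?_⟩
  · intro D' hD'
    rw [Multiset.mem_map] at hD'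
    obtain ⟨D, hD, rfl⟩ := hD'
    intro v'
    have h3 : G'.deg (univ.filter (fun e' => ψ e' ∈ D)) v' = G.deg D (φ v') := by
      rw [G'.deg_eq_sum, G.deg_eq_sum, ← Finset.sum_fiberwise_of_maps_to (t := D) (g := ψ)
        (fun e' he' => (Finset.mem_filter.1 he').2)]
      apply Finset.sum_congr rfl
      intro e he
      rw [← deg_singleton, ← hcov, G'.deg_eq_sum]
      apply Finset.sum_congr _ (fun _ _ => rfl)
      ext e'
      simp only [Finset.mem_filter, Finset.mem_univ, true_and]
      constructor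
      · exact fun h => h.2
      · intro h; exact ⟨by rw [h]; exact he, h⟩
    rw [h3]
    exact h1 D hD _
  · intro e'
    show _ = p (ψ e')
    rw [Multiset.countP_map, ← h2 (ψ e'), Multiset.countP_eq_card_filter]
    congr 1
    apply Multiset.filter_congr
    intro D _
    simp

/-- the sum over the star of a vertex of a covering graph -/
lemma star_sum {G : MGraph V E} {G' : MGraph V' E'} {φ : V' → V} {ψ : E' → E}
    (hcov : ∀ v' e, G'.deg (univ.filter (fun e' => ψ e' = e)) v' = G.deg {e} (φ v'))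
    (hloop : ∀ e', (G.ends (ψ e')).IsDiag → (G'.ends e').IsDiag) (p : E → ℕ) (v' : V') :
    ∑ f ∈ star G' v', p (ψ f) = ∑ f ∈ star G (φ v'), p f ∧
      ∀ e ∈ star G (φ v'), ∃ e' ∈ star G' v', ψ e' = e := by
  have hc : ∀ e, ∑ e' ∈ univ.filter (fun e' => ψ e' = e), G'.ep e' v' = G.ep e (φ v') := by
    intro e
    rw [← deg_singleton, ← hcov, G'.deg_eq_sum]
  have hi : ∀ e' ∈ star G' v', ψ e' ∈ star G (φ v') := by
    intro e' he'
    have h1 := ep_of_star he'
    have h2 : ¬ (G'.ends e').IsDiag := (Finset.mem_filter.1 he').2.2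
    have h3 : ¬ (G.ends (ψ e')).IsDiag := fun h => h2 (hloop e' h)
    refine Finset.mem_filter.2 ⟨Finset.mem_univ _, ?_, h3⟩
    by_contra hcon
    have h4 := hc (ψ e')
    rw [G.ep_eq_zero hcon] at h4
    have h5 := (Finset.sum_eq_zero_iff.1 h4) e' (by simp)
    omega
  have hs : ∀ e ∈ star G (φ v'), ∃ e' ∈ star G' v', ψ e' = e := by
    intro e he
    have h1 := hc e
    rw [ep_of_star he] at h1
    have h2 : ∃ e' ∈ univ.filter (fun e' => ψ e' = e), G'.ep e' v' ≠ 0 := by
      by_contra hcon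
      push Not at hcon
      rw [Finset.sum_eq_zero hcon] at h1
      omega
    obtain ⟨e', he', h3⟩ := h2
    refine ⟨e', ?_, (Finset.mem_filter.1 he').2⟩
    by_contra h4
    have h5 := ep_even_of_notMem_star h4
    have h6 : G'.ep e' v' ≤ 1 := by
      rw [← h1]
      exact Finset.single_le_sum (f := fun e' => G'.ep e' v') (fun _ _ => Nat.zero_le _) he'
    obtain ⟨k, hk⟩ := h5
    omega
  refine ⟨?_, hs⟩
  apply Finset.sum_nbij ψ hi
  · intro e1 h1 e2 h2 h12
    by_contra hne
    have h3 := hc (ψ e1)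
    have h4 := ep_of_star (hi e1 h1)
    rw [h4] at h3
    have h5 : ({e1, e2} : Finset E') ⊆ univ.filter (fun e' => ψ e' = ψ e1) := by
      intro x hx
      simp only [Finset.mem_insert, Finset.mem_singleton] at hx
      rw [Finset.mem_filter]
      rcases hx with rfl | rfl
      · exact ⟨Finset.mem_univ _, rfl⟩
      · exact ⟨Finset.mem_univ _, h12.symm⟩
    have h6 := Finset.sum_le_sum_of_subset (f := fun e' => G'.ep e' v') h5
    rw [Finset.sum_pair hne, ep_of_star (Finset.mem_coe.1 h1), ep_of_star (Finset.mem_coe.1 h2)] at h6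
    omega
  · intro e he
    obtain ⟨e', he', h⟩ := hs e (Finset.mem_coe.1 he)
    exact ⟨e', Finset.mem_coe.2 he', h⟩
  · intro _ _; rfl

/-- the theorem -/
theorem main_cov {G : MGraph V E} {G' : MGraph V' E'}
    (hG : ∀ (g : Γ) (e : E), G.ends (g • e) = (G.ends e).map (g • ·))
    (htr : ∀ v w : V, ∃ g : Γ, g • v = w)
    (hfree : ∀ (g : Γ) (v : V) (e : E), v ∈ G.ends e → ¬ (G.ends e).IsDiag → g • v = v →
      g • e = e → g = 1)
    {p : E → ℕ} (hp : ∀ (g : Γ) (e : E), p (g • e) = p e) {φ : V' → V} {ψ : E' → E}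
    (hsurj : Function.Surjective φ)
    (hcov : ∀ v' e, G'.deg (univ.filter (fun e' => ψ e' = e)) v' = G.deg {e} (φ v'))
    (hloop : ∀ e', (G.ends (ψ e')).IsDiag → (G'.ends e').IsDiag) :
    (InIntCone G' (fun e' => p (ψ e')) ↔
      InCone G' (fun e' => p (ψ e')) ∧ InLat G' (fun e' => p (ψ e'))) ∧
    (InIntCone G' (fun e' => p (ψ e')) ↔ Loc G' (fun e' => p (ψ e'))) := by
  have h1 : InIntCone G' (fun e' => p (ψ e')) →
      InCone G' (fun e' => p (ψ e')) ∧ InLat G' (fun e' => p (ψ e')) := cone_lat_of_intCone G' _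
  have h2 : InCone G' (fun e' => p (ψ e')) ∧ InLat G' (fun e' => p (ψ e')) →
      Loc G' (fun e' => p (ψ e')) := fun h => loc_of_cone_lat h.1 h.2
  have h3 : Loc G' (fun e' => p (ψ e')) → InIntCone G' (fun e' => p (ψ e')) := by
    intro hloc
    apply EC.cover
    apply EC.pull hcov
    have hloc2 : Loc G p := by
      constructor
      · intro v
        obtain ⟨v', rfl⟩ := hsurj v
        rw [← (star_sum hcov hloop p v').1]
        exact hloc.1 v'
      · intro v e he
        obtain ⟨v', rfl⟩ := hsurj v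
        rw [← (star_sum hcov hloop p v').1]
        obtain ⟨e', he', rfl⟩ := (star_sum hcov hloop p v').2 e he
        exact hloc.2 v' e' he'
    by_cases hV : Nonempty V
    · obtain ⟨v0⟩ := hV
      by_cases hst : ∃ (v : V) (g : Γ), g • v = v ∧ g ≠ 1
      · obtain ⟨v, g, h4, h5⟩ := hst
        exact cover_stab hG htr hfree hp hloc2 h4 h5
      · push Not at hst
        exact cover_regular hG htr (fun g v h => hst v g h) hp hloc2 v0
    · refine (EC.zero G).congr ?_
      intro e
      exfalso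
      apply hV
      induction G.ends e using Sym2.ind with
      | _ a b => exact ⟨a⟩
  exact ⟨⟨h1, fun h => h3 (h2 h)⟩, ⟨fun h => h2 (h1 h), h3⟩⟩

end Pool.Agent.Q213.SC
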