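import Pool.Agent.Q213.SC.Basic

set_option autoImplicit false
set_option linter.unusedSectionVars false

/-!
Even edge sets from cosets of subgroups.
-/

namespace Pool.Agent.Q213.SC

open Finset
open Pool.Agent.H126R2.CDC (MGraph)
open Pool.Agent.H126R2.NC (InCone InLat InIntCone cone_lat_of_intCone)

variable {V E : Type} [Fintype V] [DecidableEq V] [Fintype E] [DecidableEq E]
variable {Γ : Type} [Group Γ] [Fintype Γ] [MulAction Γ V] [MulAction Γ E]

/-! ### counting functions -/

/-- number of indices with value `e` -/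
def w {ι : Type} (S : Finset ι) (f : ι → E) (e : E) : ℕ := ∑ x ∈ S, if f x = e then 1 else 0

lemma w_ep (G : MGraph V E) {ι : Type} (S : Finset ι) (f : ι → E) (z : V) :
    ∑ e, w S f e * G.ep e z = ∑ x ∈ S, G.ep (f x) z := by
  unfold w
  simp only [Finset.sum_mul]
  rw [Finset.sum_comm]
  apply Finset.sum_congr rfl
  intro x _
  rw [Finset.sum_eq_single (f x)]
  · simp
  · intro e _ he
    rw [if_neg (Ne.symm he), zero_mul]
  · intro h; exact absurd (Finset.mem_univ _) h

lemma w_le_one {ι : Type} (S : Finset ι) (f : ι → E)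
    (h : ∀ x ∈ S, ∀ y ∈ S, f x = f y → x = y) (e : E) : w S f e ≤ 1 := by
  classical
  unfold w
  rw [← Finset.card_filter, Finset.card_le_one]
  intro x hx y hy
  rw [Finset.mem_filter] at hx hy
  exact h x hx.1 y hy.1 (hx.2.trans hy.2.symm)

/-- the edges of the orbit of `e0` -/
noncomputable def ind (Γ : Type) [Group Γ] {E : Type} [MulAction Γ E] (e0 e : E) : ℕ := by
  classical exact if e ∈ MulAction.orbit Γ e0 then 1 else 0

lemma ind_of_mem {e0 e : E} (h : e ∈ MulAction.orbit Γ e0) : ind Γ e0 e = 1 := by
  unfold ind; rw [if_pos h]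

lemma ind_of_notMem {e0 e : E} (h : e ∉ MulAction.orbit Γ e0) : ind Γ e0 e = 0 := by
  unfold ind; rw [if_neg h]

lemma cnt0 {e0 e : E} (h : e ∉ MulAction.orbit Γ e0) :
    ∑ x : Γ, (if x • e0 = e then 1 else 0) = 0 := by
  apply Finset.sum_eq_zero
  intro x _
  rw [if_neg]
  rintro rfl
  exact h ⟨x, rfl⟩

lemma cnt1 {e0 : E} (h : ∀ g : Γ, g • e0 = e0 → g = 1) (e : E) :
    ∑ x : Γ, (if x • e0 = e then 1 else 0) = ind Γ e0 e := by
  classical
  by_cases he : e ∈ MulAction.orbit Γ e0
  · rw [ind_of_mem he]
    obtain ⟨y, rfl⟩ := he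
    rw [← Finset.card_filter, Finset.card_eq_one]
    refine ⟨y, ?_⟩
    ext x
    simp only [Finset.mem_filter, Finset.mem_univ, true_and, Finset.mem_singleton]
    constructor
    · intro hx
      have : (y⁻¹ * x) • e0 = e0 := by
        rw [mul_smul, hx]; simp
      have h2 := h _ this
      rw [inv_mul_eq_one] at h2
      exact h2.symm
    · rintro rfl; rfl
  · rw [ind_of_notMem he, cnt0 he]

lemma cnt2 {e0 : E} {r : Γ} (hr : r ≠ 1) (hr2 : r • e0 = e0)
    (h : ∀ g : Γ, g • e0 = e0 → g = 1 ∨ g = r) (e : E) :
    ∑ x : Γ, (if x • e0 = e then 1 else 0) = 2 * ind Γ e0 e := by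
  classical
  by_cases he : e ∈ MulAction.orbit Γ e0
  · rw [ind_of_mem he]
    obtain ⟨y, rfl⟩ := he
    rw [← Finset.card_filter, mul_one, Finset.card_eq_two]
    refine ⟨y, y * r, ?_, ?_⟩
    · intro hy
      exact hr (by simpa using hy.symm)
    · ext x
      simp only [Finset.mem_filter, Finset.mem_univ, true_and, Finset.mem_singleton,
        Finset.mem_insert]
      constructor
      · intro hx
        have : (y⁻¹ * x) • e0 = e0 := by
          rw [mul_smul, hx]; simp
        rcases h _ this with h2 | h2
        · rw [inv_mul_eq_one] at h2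
          exact Or.inl h2.symm
        · exact Or.inr (by rw [← h2]; group)
      · rintro (rfl | rfl)
        · rfl
        · show (y * r) • e0 = y • e0
          rw [mul_smul, hr2]
  · rw [ind_of_notMem he, cnt0 he, mul_zero]

/-! ### cosets -/

/-- the set of cosets is finite -/
noncomputable def fq (K : Subgroup Γ) : Fintype (Γ ⧸ K) := Fintype.ofFinite _

attribute [local instance 2000] fq

open Classical in
/-- the elements of a coset -/
noncomputable def cs (K : Subgroup Γ) (q : Γ ⧸ K) : Finset Γ :=
  univ.filter (fun x : Γ => (QuotientGroup.mk x : Γ ⧸ K) = q)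

lemma mem_cs {K : Subgroup Γ} {q : Γ ⧸ K} {x : Γ} : x ∈ cs K q ↔ (QuotientGroup.mk x : Γ ⧸ K) = q := by
  unfold cs; simp

lemma sum_cs (K : Subgroup Γ) (F : Γ → ℕ) : ∑ q : Γ ⧸ K, ∑ x ∈ cs K q, F x = ∑ x, F x := by
  classical
  unfold cs
  exact Finset.sum_fiberwise univ (fun x : Γ => (QuotientGroup.mk x : Γ ⧸ K)) F

lemma cs_mul {K : Subgroup Γ} {q : Γ ⧸ K} {k : Γ} (hk : k ∈ K) (F : Γ → ℕ) :
    ∑ x ∈ cs K q, F (x * k) = ∑ x ∈ cs K q, F x := by
  apply Finset.sum_bij' (fun x _ => x * k) (fun x _ => x * k⁻¹)
  · intro x hx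
    rw [mem_cs] at hx ⊢
    rw [← hx]
    exact QuotientGroup.mk_mul_of_mem x hk
  · intro x hx
    rw [mem_cs] at hx ⊢
    rw [← hx]
    exact QuotientGroup.mk_mul_of_mem x (K.inv_mem hk)
  · intro x _; group
  · intro x _; group
  · intro x _; rfl

lemma cs_same {K : Subgroup Γ} {q : Γ ⧸ K} {x y : Γ} (hx : x ∈ cs K q) (hy : y ∈ cs K q) :
    x⁻¹ * y ∈ K := by
  rw [mem_cs] at hx hy
  exact QuotientGroup.eq.1 (hx.trans hy.symm)

/-- the subgroup of order two -/
def K2 (r : Γ) (hr : r * r = 1) : Subgroup Γ where
  carrier := {1, r}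
  one_mem' := by simp
  mul_mem' := by
    intro a b ha hb
    simp only [Set.mem_insert_iff, Set.mem_singleton_iff] at ha hb ⊢
    rcases ha with rfl | rfl <;> rcases hb with rfl | rfl <;> simp [hr]
  inv_mem' := by
    intro a ha
    simp only [Set.mem_insert_iff, Set.mem_singleton_iff] at ha ⊢
    rcases ha with rfl | rfl
    · simp
    · exact Or.inr (inv_eq_of_mul_eq_one_left hr)

lemma sum_K2 (r : Γ) (hr1 : r ≠ 1) (hr : r * r = 1) (F : Γ → ℕ) :
    ∑ x, F x = ∑ q : Γ ⧸ K2 r hr, (F q.out + F (q.out * r)) := by
  classical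
  rw [← sum_cs (K2 r hr)]
  apply Finset.sum_congr rfl
  intro q _
  have h1 : cs (K2 r hr) q = {q.out, q.out * r} := by
    ext x
    rw [mem_cs]
    simp only [Finset.mem_insert, Finset.mem_singleton]
    constructor
    · intro hx
      have h2 : (QuotientGroup.mk q.out : Γ ⧸ K2 r hr) = QuotientGroup.mk x := by
        rw [hx]; exact QuotientGroup.out_eq' q
      rw [QuotientGroup.eq] at h2
      have h3 : q.out⁻¹ * x = 1 ∨ q.out⁻¹ * x = r := h2
      rcases h3 with h3 | h3
      · left
        rw [inv_mul_eq_one] at h3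
        exact h3.symm
      · right
        calc x = q.out * (q.out⁻¹ * x) := by group
          _ = q.out * r := by rw [h3]
    · rintro (rfl | rfl)
      · exact QuotientGroup.out_eq' q
      · rw [QuotientGroup.mk_mul_of_mem _ (show r ∈ K2 r hr from Or.inr rfl)]
        exact QuotientGroup.out_eq' q
  rw [h1, Finset.sum_pair]
  intro h
  exact hr1 (by simpa using h.symm)

/-! ### actions on graphs -/

lemma ends_smul {G : MGraph V E} (hG : ∀ (g : Γ) (e : E), G.ends (g • e) = (G.ends e).map (g • ·))
    {e : E} {a b : V} (h : G.ends e = s(a, b)) (g : Γ) : G.ends (g • e) = s(g • a, g • b) := by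
  rw [hG, h]; rfl

lemma ep_smul {G : MGraph V E} (hG : ∀ (g : Γ) (e : E), G.ends (g • e) = (G.ends e).map (g • ·))
    {e : E} {a b : V} (h : G.ends e = s(a, b)) (g : Γ) (z : V) :
    G.ep (g • e) z = (if g • a = z then 1 else 0) + (if g • b = z then 1 else 0) :=
  G.ep_eq (ends_smul hG h g) z

lemma sum_translate (t : Γ) (F : Γ → ℕ) : ∑ x : Γ, F (x * t) = ∑ x, F x :=
  Fintype.sum_equiv (Equiv.mulRight t) _ _ (fun x => rfl)

/-- twice the orbit of an edge, for nontrivial stabilisers -/
lemma ec_double {G : MGraph V E}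
    (hG : ∀ (g : Γ) (e : E), G.ends (g • e) = (G.ends e).map (g • ·))
    (htr : ∀ v w : V, ∃ g : Γ, g • v = w)
    (hfree : ∀ (g : Γ) (v : V) (e : E), v ∈ G.ends e → ¬ (G.ends e).IsDiag → g • v = v →
      g • e = e → g = 1)
    {e0 : E} {a b : V} (h0 : G.ends e0 = s(a, b)) (hab : a ≠ b) {x0 : Γ} (hx0 : x0 • a = a)
    (hx1 : x0 ≠ 1) : EC G (fun e => 2 * ind Γ e0 e) := by
  classical
  have hnd : ¬ (G.ends e0).IsDiag := by
    rw [h0]; exact hab
  have hfa : ∀ g : Γ, g • a = a → g • e0 = e0 → g = 1 :=
    fun g h1 h2 => hfree g a e0 (by rw [h0]; simp) hnd h1 h2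
  by_cases hex : ∃ r : Γ, r ≠ 1 ∧ r • e0 = e0
  · obtain ⟨r, hr1, hr0⟩ := hex
    have hends : s(r • a, r • b) = s(a, b) := by
      rw [← ends_smul hG h0 r, hr0, h0]
    have hrab : r • a = b ∧ r • b = a := by
      rw [Sym2.eq_iff] at hends
      rcases hends with ⟨h1, _⟩ | h1
      · exact absurd (hfa r h1 hr0) hr1
      · exact h1
    have hrr : r * r = 1 := by
      apply hfa
      · rw [mul_smul, hrab.1, hrab.2]
      · rw [mul_smul, hr0, hr0]
    have hstab : ∀ g : Γ, g • e0 = e0 → g = 1 ∨ g = r := by
      intro g hg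
      have h1 : s(g • a, g • b) = s(a, b) := by
        rw [← ends_smul hG h0 g, hg, h0]
      rw [Sym2.eq_iff] at h1
      rcases h1 with ⟨h1, _⟩ | ⟨h1, _⟩
      · exact Or.inl (hfa g h1 hg)
      · right
        have h2 : r * g = 1 := by
          apply hfa
          · rw [mul_smul, h1, hrab.2]
          · rw [mul_smul, hg, hr0]
        have h3 : r * g = r * r := by rw [h2, hrr]
        exact mul_left_cancel h3
    by_cases hrK : r ∈ Subgroup.zpowers (r * x0)
    · -- digons
      have hcomm : x0 * r = r * x0 := by
        obtain ⟨k, hk⟩ := Subgroup.mem_zpowers_iff.1 hrK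
        have h1 : Commute (r * x0) r := by
          have h2 : Commute (r * x0) ((r * x0) ^ k) := (Commute.refl _).zpow_right k
          rwa [hk] at h2
        have h2 : r * x0 * r = r * (r * x0) := h1
        rw [mul_assoc] at h2
        exact mul_left_cancel h2
      have hx0b : x0 • b = b := by
        rw [← hrab.1, ← mul_smul, hcomm, mul_smul, hx0]
      have hx0e : x0 • e0 ≠ e0 := fun h => hx1 (hfa x0 hx0 h)
      let c : (Γ ⧸ K2 r hrr) → E → ℕ := fun q e =>
        w (univ : Finset Bool) (fun t => (if t then q.out else q.out * x0) • e0) e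
      have hc : EC G (fun e => ∑ q, c q e) := by
        apply EC.sum
        intro q _
        apply EC.of_le_one
        · intro e
          apply w_le_one
          intro t _ t' _ h
          have hne : q.out • e0 ≠ (q.out * x0) • e0 := by
            intro h2
            rw [mul_smul] at h2
            exact hx0e (smul_left_cancel _ h2).symm
          cases t <;> cases t'
          · rfl
          · exact absurd h.symm (by simpa using hne)
          · exact absurd h (by simpa using hne)
          · rfl
        · intro z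
          rw [w_ep]
          rw [Fintype.sum_bool]
          simp only [if_true, Bool.false_eq_true, if_false]
          rw [ep_smul hG h0, ep_smul hG h0, mul_smul, mul_smul, hx0, hx0b]
          exact ⟨_, rfl⟩
      refine hc.congr ?_
      intro e
      have h1 := cnt2 hr1 hr0 hstab e
      have h2 := sum_K2 r hr1 hrr (fun x => if x • e0 = e then 1 else 0)
      have h3 : ∑ x : Γ, (if (x * x0) • e0 = e then 1 else 0) = 2 * ind Γ e0 e := by
        rw [sum_translate x0 (fun x => if x • e0 = e then 1 else 0)]
        exact h1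
      have h4 := sum_K2 r hr1 hrr (fun x => if (x * x0) • e0 = e then 1 else 0)
      rw [h1] at h2
      rw [h3] at h4
      have h5 : ∀ x : Γ, (x * r) • e0 = x • e0 := fun x => by rw [mul_smul, hr0]
      have h6 : ∀ x : Γ, (x * r * x0) • e0 = (x * x0) • e0 := fun x => by
        rw [mul_assoc, ← hcomm, ← mul_assoc, h5]
      simp only [h5, h6, Finset.sum_add_distrib] at h2 h4
      simp only [c, w, Fintype.sum_bool, if_true, Bool.false_eq_true, if_false,
        Finset.sum_add_distrib]
      omega
    · -- cosets
      let K := Subgroup.zpowers (r * x0)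
      let c : (Γ ⧸ K) → E → ℕ := fun q e => w (cs K q) (fun x => x • e0) e
      have hc : EC G (fun e => ∑ q, c q e) := by
        apply EC.sum
        intro q _
        apply EC.of_le_one
        · intro e
          apply w_le_one
          intro x hx y hy h
          have h1 : (x⁻¹ * y) • e0 = e0 := by
            rw [mul_smul, ← h]; simp
          rcases hstab _ h1 with h2 | h2
          · rw [inv_mul_eq_one] at h2
            exact h2
          · exfalso
            have h3 := cs_same hx hy
            rw [h2] at h3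
            exact hrK h3
        · intro z
          rw [w_ep]
          have h1 : ∀ x ∈ cs K q, G.ep (x • e0) z = (if x • a = z then 1 else 0) +
              (if (x * (r * x0)) • a = z then 1 else 0) := by
            intro x _
            rw [ep_smul hG h0, mul_smul x, mul_smul r, hx0, hrab.1]
          rw [Finset.sum_congr rfl h1, Finset.sum_add_distrib,
            cs_mul (Subgroup.mem_zpowers (r * x0)) (fun x => if x • a = z then 1 else 0)]
          exact ⟨_, rfl⟩
      refine hc.congr ?_
      intro e
      rw [← cnt2 hr1 hr0 hstab e, ← sum_cs K]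
      rfl
  · push Not at hex
    have hst : ∀ g : Γ, g • e0 = e0 → g = 1 := by
      intro g hg
      by_contra hne
      exact hex g hne hg
    apply EC.nsmul
    apply EC.of_le_one
    · intro e
      unfold ind
      split_ifs <;> norm_num
    · intro z
      have h1 : ∀ e ∈ (univ : Finset E), ind Γ e0 e * G.ep e z =
          w (univ : Finset Γ) (fun x => x • e0) e * G.ep e z := by
        intro e _
        rw [← cnt1 hst e]
        rfl
      rw [Finset.sum_congr rfl h1, w_ep]
      obtain ⟨t, ht⟩ := htr a b
      have h2 : ∀ x ∈ (univ : Finset Γ), G.ep (x • e0) z = (if x • a = z then 1 else 0) +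
          (if (x * t) • a = z then 1 else 0) := by
        intro x _
        rw [ep_smul hG h0, mul_smul, ht]
      rw [Finset.sum_congr rfl h2, Finset.sum_add_distrib,
        sum_translate t (fun x => if x • a = z then 1 else 0)]
      exact ⟨_, rfl⟩

/-- twice a perfect matching orbit and once another orbit, for a regular action on vertices -/
lemma ec_mix {G : MGraph V E}
    (hG : ∀ (g : Γ) (e : E), G.ends (g • e) = (G.ends e).map (g • ·))
    (hfix : ∀ (g : Γ) (v : V), g • v = v → g = 1) {v0 : V}
    {e1 e2 : E} {s a : Γ} (h1 : G.ends e1 = s(v0, s • v0)) (hs1 : s • e1 = e1) (hs : s ≠ 1)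
    (h2 : G.ends e2 = s(v0, a • v0)) (ha : a ≠ 1) (hst2 : ∀ g : Γ, g • e2 = e2 → g = 1) :
    EC G (fun e => 2 * ind Γ e1 e + ind Γ e2 e) := by
  classical
  have hss : s * s = 1 := by
    have h3 : s(s • v0, s • s • v0) = s(v0, s • v0) := by
      rw [← ends_smul hG h1 s, hs1, h1]
    rw [Sym2.eq_iff] at h3
    rcases h3 with ⟨h3, _⟩ | ⟨_, h3⟩
    · exact absurd (hfix s v0 h3) hs
    · rw [← mul_smul] at h3
      exact hfix _ v0 h3
  have hst1 : ∀ g : Γ, g • e1 = e1 → g = 1 ∨ g = s := by
    intro g hg
    have h3 : s(g • v0, g • s • v0) = s(v0, s • v0) := by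
      rw [← ends_smul hG h1 g, hg, h1]
    rw [Sym2.eq_iff] at h3
    rcases h3 with ⟨h3, _⟩ | ⟨h3, _⟩
    · exact Or.inl (hfix g v0 h3)
    · right
      have h4 : (s⁻¹ * g) • v0 = v0 := by
        rw [mul_smul, h3]; simp
      have h5 := hfix _ _ h4
      rw [inv_mul_eq_one] at h5
      exact h5.symm
  have hne : ∀ x y : Γ, x • e1 ≠ y • e2 := by
    intro x y h
    have h3 : (y⁻¹ * x) • e1 = e2 := by
      rw [mul_smul, h]; simp
    have h4 : (y⁻¹ * x * s * (y⁻¹ * x)⁻¹) • e2 = e2 := by
      rw [← h3, ← mul_smul]
      have : y⁻¹ * x * s * (y⁻¹ * x)⁻¹ * (y⁻¹ * x) = (y⁻¹ * x) * s := by group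
      rw [this, mul_smul, hs1]
    have h5 := hst2 _ h4
    apply hs
    have h6 : (y⁻¹ * x)⁻¹ * (y⁻¹ * x * s * (y⁻¹ * x)⁻¹) * (y⁻¹ * x) = 1 := by
      rw [h5]; group
    have h7 : (y⁻¹ * x)⁻¹ * (y⁻¹ * x * s * (y⁻¹ * x)⁻¹) * (y⁻¹ * x) = s := by group
    rw [← h7, h6]
  by_cases hsK : s ∈ Subgroup.zpowers (s * a)
  · -- quadrilaterals
    have hcomm : a * s = s * a := by
      obtain ⟨k, hk⟩ := Subgroup.mem_zpowers_iff.1 hsK
      have h3 : Commute (s * a) s := by
        have h4 : Commute (s * a) ((s * a) ^ k) := (Commute.refl _).zpow_right k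
        rwa [hk] at h4
      have h4 : s * a * s = s * (s * a) := h3
      rw [mul_assoc] at h4
      exact mul_left_cancel h4
    have has : a ≠ s := by
      rintro rfl
      rw [hss] at hsK
      simp only [Subgroup.zpowers_one_eq_bot, Subgroup.mem_bot] at hsK
      exact hs hsK
    let f : Γ → Bool × Bool → E := fun y t =>
      match t with
      | (true, true) => y • e1
      | (true, false) => (y * a) • e1
      | (false, true) => y • e2
      | (false, false) => (y * s) • e2
    let c : (Γ ⧸ K2 s hss) → E → ℕ := fun q e => w (univ : Finset (Bool × Bool)) (f q.out) e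
    have hc : EC G (fun e => ∑ q, c q e) := by
      apply EC.sum
      intro q _
      apply EC.of_le_one
      · intro e
        apply w_le_one
        have hA : q.out • e1 ≠ (q.out * a) • e1 := by
          intro h
          rw [mul_smul] at h
          rcases hst1 a (smul_left_cancel _ h).symm with h3 | h3
          · exact ha h3
          · exact has h3
        have hB : q.out • e2 ≠ (q.out * s) • e2 := by
          intro h
          rw [mul_smul] at h
          exact hs (hst2 s (smul_left_cancel _ h).symm)
        rintro ⟨t1, t2⟩ _ ⟨t3, t4⟩ _ h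
        cases t1 <;> cases t2 <;> cases t3 <;> cases t4 <;> first
          | rfl
          | exact absurd h hA
          | exact absurd h.symm hA
          | exact absurd h hB
          | exact absurd h.symm hB
          | exact absurd h (hne _ _)
          | exact absurd h.symm (hne _ _)
      · intro z
        rw [w_ep, Fintype.sum_prod_type]
        simp only [Fintype.sum_bool, f]
        rw [ep_smul hG h1, ep_smul hG h1, ep_smul hG h2, ep_smul hG h2]
        simp only [← mul_smul]
        have h3 : q.out * s * a = q.out * a * s := by rw [mul_assoc, ← hcomm, ← mul_assoc]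
        rw [h3]
        refine ⟨(if q.out • v0 = z then 1 else 0) + (if (q.out * s) • v0 = z then 1 else 0) +
          (if (q.out * a) • v0 = z then 1 else 0) + (if (q.out * a * s) • v0 = z then 1 else 0), ?_⟩
        ring
    refine hc.congr ?_
    intro e
    have k1 := cnt2 hs hs1 hst1 e
    have k2 := sum_K2 s hs hss (fun x => if x • e1 = e then 1 else 0)
    have k3 : ∑ x : Γ, (if (x * a) • e1 = e then 1 else 0) = 2 * ind Γ e1 e := by
      rw [sum_translate a (fun x => if x • e1 = e then 1 else 0)]
      exact k1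
    have k4 := sum_K2 s hs hss (fun x => if (x * a) • e1 = e then 1 else 0)
    rw [k1] at k2
    rw [k3] at k4
    have h5 : ∀ x : Γ, (x * s) • e1 = x • e1 := fun x => by rw [mul_smul, hs1]
    have h6 : ∀ x : Γ, (x * s * a) • e1 = (x * a) • e1 := fun x => by
      rw [mul_assoc, ← hcomm, ← mul_assoc, h5]
    have k5 := sum_K2 s hs hss (fun x => if x • e2 = e then 1 else 0)
    rw [cnt1 hst2 e] at k5
    simp only [h5, h6, Finset.sum_add_distrib] at k2 k4 k5
    simp only [c, w, f, Fintype.sum_prod_type, Fintype.sum_bool, Finset.sum_add_distrib]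
    omega
  · -- alternating closed trails
    let K := Subgroup.zpowers (s * a)
    let f : Γ × Bool → E := fun t => if t.2 then t.1 • e1 else (t.1 * s) • e2
    let c : (Γ ⧸ K) → E → ℕ := fun q e => w (cs K q ×ˢ (univ : Finset Bool)) f e
    have hc : EC G (fun e => ∑ q, c q e) := by
      apply EC.sum
      intro q _
      apply EC.of_le_one
      · intro e
        apply w_le_one
        rintro ⟨x, t⟩ hx ⟨y, t'⟩ hy h
        rw [Finset.mem_product] at hx hy
        have hxy := cs_same hx.1 hy.1
        cases t <;> cases t'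
        · have h3 : (x * s) • e2 = (y * s) • e2 := h
          have h4 : ((x * s)⁻¹ * (y * s)) • e2 = e2 := by
            rw [mul_smul, ← h3, inv_smul_smul]
          have h5 := hst2 _ h4
          rw [inv_mul_eq_one] at h5
          rw [mul_right_cancel h5]
        · exact absurd (show y • e1 = (x * s) • e2 from h.symm) (hne _ _)
        · exact absurd (show x • e1 = (y * s) • e2 from h) (hne _ _)
        · have h3 : x • e1 = y • e1 := h
          have h4 : (x⁻¹ * y) • e1 = e1 := by
            rw [mul_smul, ← h3]; simp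
          rcases hst1 _ h4 with h5 | h5
          · rw [inv_mul_eq_one] at h5
            rw [h5]
          · exfalso
            have h6 : x⁻¹ * y ∈ K := hxy
            rw [h5] at h6
            exact hsK h6
      · intro z
        rw [w_ep, Finset.sum_product]
        have h3 : ∀ x ∈ cs K q, ∑ t : Bool, G.ep (f (x, t)) z =
            2 * (if (x * s) • v0 = z then 1 else 0) + ((if x • v0 = z then 1 else 0) +
            (if (x * (s * a)) • v0 = z then 1 else 0)) := by
          intro x _
          rw [Fintype.sum_bool]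
          show G.ep (x • e1) z + G.ep ((x * s) • e2) z = _
          rw [ep_smul hG h1, ep_smul hG h2]
          simp only [← mul_smul, mul_assoc]
          ring
        rw [Finset.sum_congr rfl h3, Finset.sum_add_distrib, Finset.sum_add_distrib,
          cs_mul (Subgroup.mem_zpowers (s * a)) (fun x => if x • v0 = z then 1 else 0),
          ← Finset.mul_sum]
        refine ⟨(∑ x ∈ cs K q, if (x * s) • v0 = z then 1 else 0) +
          ∑ x ∈ cs K q, if x • v0 = z then 1 else 0, ?_⟩
        ring
    refine hc.congr ?_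
    intro e
    have k1 := cnt2 hs hs1 hst1 e
    have k2 := cnt1 hst2 e
    rw [← sum_translate s (fun x => if x • e2 = e then 1 else 0)] at k2
    rw [← sum_cs K] at k1 k2
    rw [← k1, ← k2, ← Finset.sum_add_distrib]
    apply Finset.sum_congr rfl
    intro q _
    rw [← Finset.sum_add_distrib]
    show w _ _ _ = _
    unfold w
    rw [Finset.sum_product]
    apply Finset.sum_congr rfl
    intro x _
    rw [Fintype.sum_bool]
    rfl

end Pool.Agent.Q213.SC
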