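import Pool.Agent.Q213.SC.Grp

set_option autoImplicit false
set_option linter.unusedSectionVars false

/-!
Circuit covers for invariant weightings of vertex-transitive, arc-semiregular group actions.
-/

namespace Pool.Agent.Q213.SC

open Finset
open Pool.Agent.H126R2.CDC (MGraph)
open Pool.Agent.H126R2.NC (InCone InLat InIntCone cone_lat_of_intCone)

variable {V E : Type} [Fintype V] [DecidableEq V] [Fintype E] [DecidableEq E]
variable {Γ : Type} [Group Γ] [Fintype Γ] [MulAction Γ V] [MulAction Γ E]

open Classical in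
/-- the indicator function of a single orbit -/
noncomputable def sg (q : MulAction.orbitRel.Quotient Γ E) (e : E) : ℕ :=
  if (Quotient.mk _ e : MulAction.orbitRel.Quotient Γ E) = q then 1 else 0

lemma mk_eq_iff {e f : E} : (Quotient.mk _ e : MulAction.orbitRel.Quotient Γ E) =
    Quotient.mk _ f ↔ e ∈ MulAction.orbit Γ f := by
  rw [Quotient.eq]
  rfl

lemma sg_eq_ind (e0 e : E) : sg (Quotient.mk _ e0 : MulAction.orbitRel.Quotient Γ E) e =
    ind Γ e0 e := by
  unfold sg
  by_cases h : e ∈ MulAction.orbit Γ e0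
  · rw [ind_of_mem h, if_pos (mk_eq_iff.2 h)]
  · rw [ind_of_notMem h, if_neg (fun h2 => h (mk_eq_iff.1 h2))]

lemma isDiag_smul {G : MGraph V E}
    (hG : ∀ (g : Γ) (e : E), G.ends (g • e) = (G.ends e).map (g • ·)) (g : Γ) (e : E) :
    (G.ends (g • e)).IsDiag ↔ (G.ends e).IsDiag := by
  induction h : G.ends e using Sym2.ind with
  | _ x y =>
    rw [ends_smul hG h]
    show g • x = g • y ↔ x = y
    exact smul_left_cancel_iff g

/-- an orbit of loops is even -/
lemma ec_loops {G : MGraph V E}
    (hG : ∀ (g : Γ) (e : E), G.ends (g • e) = (G.ends e).map (g • ·)) {e0 : E}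
    (h : (G.ends e0).IsDiag) : EC G (ind Γ e0) := by
  classical
  apply EC.of_le_one
  · intro e
    unfold ind
    split_ifs <;> norm_num
  · intro z
    apply Finset.even_sum
    intro e _
    by_cases he : e ∈ MulAction.orbit Γ e0
    · obtain ⟨g, rfl⟩ := he
      apply Even.mul_left
      apply ep_even_of_notMem_star
      unfold star
      rw [Finset.mem_filter]
      rintro ⟨_, _, h2⟩
      exact h2 ((isDiag_smul hG g e0).2 h)
    · rw [ind_of_notMem he, zero_mul]
      exact ⟨0, rfl⟩

/-- the case of nontrivial vertex stabilisers -/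
lemma cover_stab {G : MGraph V E}
    (hG : ∀ (g : Γ) (e : E), G.ends (g • e) = (G.ends e).map (g • ·))
    (htr : ∀ v w : V, ∃ g : Γ, g • v = w)
    (hfree : ∀ (g : Γ) (v : V) (e : E), v ∈ G.ends e → ¬ (G.ends e).IsDiag → g • v = v →
      g • e = e → g = 1)
    {p : E → ℕ} (hp : ∀ (g : Γ) (e : E), p (g • e) = p e) (hloc : Loc G p)
    {v0 : V} {g0 : Γ} (hg0 : g0 • v0 = v0) (hg1 : g0 ≠ 1) : EC G p := by
  classical
  -- all stabilisers are nontrivial
  have hst : ∀ v : V, ∃ x : Γ, x • v = v ∧ x ≠ 1 := by
    intro v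
    obtain ⟨t, rfl⟩ := htr v0 v
    refine ⟨t * g0 * t⁻¹, ?_, ?_⟩
    · rw [mul_smul, mul_smul, inv_smul_smul, hg0]
    · intro h
      apply hg1
      have : t⁻¹ * (t * g0 * t⁻¹) * t = 1 := by rw [h]; group
      rw [← this]; group
  -- the odd part
  have hodd : EC G (fun e => p e % 2) := by
    apply EC.of_le_one
    · intro e
      have := Nat.mod_lt (p e) (show 0 < 2 by norm_num)
      omega
    · intro z
      have h1 := even_ep_sum (G := G) (p := p) z
      have h2 := h1.2 (hloc.1 z)
      rw [Nat.even_iff] at h2 ⊢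
      rw [Finset.sum_nat_mod] at h2 ⊢
      have h3 : ∀ e ∈ (univ : Finset E), (p e * G.ep e z) % 2 = (p e % 2 * G.ep e z) % 2 := by
        intro e _
        simp [Nat.mul_mod]
      rw [Finset.sum_congr rfl h3] at h2
      exact h2
  have heven : EC G (fun e => ∑ q : MulAction.orbitRel.Quotient Γ E,
      (p q.out / 2) * (2 * sg q e)) := by
    apply EC.sum
    intro q _
    apply EC.nsmul
    have hq : (Quotient.mk _ q.out : MulAction.orbitRel.Quotient Γ E) = q := Quotient.out_eq q
    have h1 : ∀ e, sg q e = ind Γ q.out e := by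
      intro e
      rw [← sg_eq_ind, hq]
    by_cases hd : (G.ends q.out).IsDiag
    · apply EC.nsmul
      exact (ec_loops hG hd).congr (fun e => (h1 e).symm)
    · induction h2 : G.ends q.out using Sym2.ind with
      | _ a b =>
        have hab : a ≠ b := by
          intro hab
          apply hd
          rw [h2]
          exact hab
        obtain ⟨x, hx, hx1⟩ := hst a
        exact (ec_double hG htr hfree h2 hab hx hx1).congr (fun e => by rw [h1 e])
  refine (heven.add hodd).congr ?_
  intro e
  rw [Finset.sum_eq_single (Quotient.mk _ e : MulAction.orbitRel.Quotient Γ E)]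
  · have h1 : sg (Quotient.mk _ e : MulAction.orbitRel.Quotient Γ E) e = 1 := by
      unfold sg; rw [if_pos rfl]
    have h2 : p (Quotient.out (Quotient.mk _ e : MulAction.orbitRel.Quotient Γ E)) = p e := by
      have h3 : (Quotient.mk _ (Quotient.out (Quotient.mk _ e :
        MulAction.orbitRel.Quotient Γ E)) : MulAction.orbitRel.Quotient Γ E) = Quotient.mk _ e :=
        Quotient.out_eq _
      obtain ⟨g, hg⟩ := mk_eq_iff.1 h3
      rw [← hg]
      exact hp g e
    rw [h1, h2]
    omega
  · intro q _ hq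
    have h1 : sg q e = 0 := by
      unfold sg; rw [if_neg (Ne.symm hq)]
    rw [h1]
    ring
  · intro h; exact absurd (Finset.mem_univ _) h

/-- the case of a regular action on vertices -/
lemma cover_regular {G : MGraph V E}
    (hG : ∀ (g : Γ) (e : E), G.ends (g • e) = (G.ends e).map (g • ·))
    (htr : ∀ v w : V, ∃ g : Γ, g • v = w)
    (hfix : ∀ (g : Γ) (v : V), g • v = v → g = 1)
    {p : E → ℕ} (hp : ∀ (g : Γ) (e : E), p (g • e) = p e) (hloc : Loc G p) (v0 : V) :
    EC G p := by
  classical
  let Q := MulAction.orbitRel.Quotient Γ E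
  -- representatives
  have hrep : ∀ q : Q, ∃ e : E, (Quotient.mk _ e : Q) = q ∧ ∃ t : Γ, G.ends e = s(v0, t • v0) := by
    intro q
    obtain ⟨e, rfl⟩ := Quotient.exists_rep q
    induction h : G.ends e using Sym2.ind with
    | _ a b =>
      obtain ⟨g, hg⟩ := htr a v0
      obtain ⟨t, ht⟩ := htr v0 (g • b)
      refine ⟨g • e, ?_, t, ?_⟩
      · exact mk_eq_iff.2 ⟨g, rfl⟩
      · rw [ends_smul hG h, hg, ht]
  choose re hre1 tt hre2 using hrep
  have hsg : ∀ q e, sg q e = ind Γ (re q) e := by
    intro q e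
    rw [← sg_eq_ind, hre1]
  -- types
  let M : Finset Q := univ.filter (fun q => ¬ (G.ends (re q)).IsDiag ∧ tt q • re q = re q)
  let N : Finset Q := univ.filter (fun q => ¬ (G.ends (re q)).IsDiag ∧ tt q • re q ≠ re q)
  have htt : ∀ q, ¬ (G.ends (re q)).IsDiag → tt q ≠ 1 := by
    intro q hq h
    apply hq
    rw [hre2, h, one_smul]
    rfl
  have hstM : ∀ q ∈ M, ∀ g : Γ, g • re q = re q → g = 1 ∨ g = tt q := by
    intro q hq g hg
    have h3 : s(g • v0, g • tt q • v0) = s(v0, tt q • v0) := by
      rw [← ends_smul hG (hre2 q) g, hg, hre2 q]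
    rw [Sym2.eq_iff] at h3
    rcases h3 with ⟨h3, _⟩ | ⟨h3, _⟩
    · exact Or.inl (hfix g v0 h3)
    · right
      have h4 : ((tt q)⁻¹ * g) • v0 = v0 := by
        rw [mul_smul, h3, inv_smul_smul]
      have h5 := hfix _ _ h4
      rw [inv_mul_eq_one] at h5
      exact h5.symm
  have hstN : ∀ q ∈ N, ∀ g : Γ, g • re q = re q → g = 1 := by
    intro q hq g hg
    have h3 : s(g • v0, g • tt q • v0) = s(v0, tt q • v0) := by
      rw [← ends_smul hG (hre2 q) g, hg, hre2 q]
    rw [Sym2.eq_iff] at h3
    rcases h3 with ⟨h3, _⟩ | ⟨h3, _⟩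
    · exact hfix g v0 h3
    · exfalso
      have h4 : ((tt q)⁻¹ * g) • v0 = v0 := by
        rw [mul_smul, h3, inv_smul_smul]
      have h5 := hfix _ _ h4
      rw [inv_mul_eq_one] at h5
      rw [← h5] at hg
      exact (Finset.mem_filter.1 hq).2.2 hg
  -- counting elements
  have hone : ∀ z : V, ∑ x : Γ, (if x • v0 = z then 1 else 0) = 1 := by
    intro z
    obtain ⟨g, hg⟩ := htr v0 z
    rw [← Finset.card_filter, Finset.card_eq_one]
    refine ⟨g, ?_⟩
    ext x
    simp only [Finset.mem_filter, Finset.mem_univ, true_and, Finset.mem_singleton]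
    constructor
    · intro hx
      have h4 : (g⁻¹ * x) • v0 = v0 := by
        rw [mul_smul, hx, ← hg, inv_smul_smul]
      have h5 := hfix _ _ h4
      rw [inv_mul_eq_one] at h5
      exact h5.symm
    · rintro rfl; exact hg
  have hepsum : ∀ q z, ∑ x : Γ, G.ep (x • re q) z = 2 := by
    intro q z
    have h2 : ∀ x ∈ (univ : Finset Γ), G.ep (x • re q) z = (if x • v0 = z then 1 else 0) +
        (if (x * tt q) • v0 = z then 1 else 0) := by
      intro x _
      rw [ep_smul hG (hre2 q), mul_smul]
    rw [Finset.sum_congr rfl h2, Finset.sum_add_distrib,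
      sum_translate (tt q) (fun x => if x • v0 = z then 1 else 0), hone]
  have hDM : ∀ q ∈ M, ∀ z, ∑ e, sg q e * G.ep e z = 1 := by
    intro q hq z
    have hq' := (Finset.mem_filter.1 hq).2
    have h1 : ∑ e, w (univ : Finset Γ) (fun x => x • re q) e * G.ep e z = 2 := by
      rw [w_ep, hepsum]
    have h2 : ∀ e ∈ (univ : Finset E), w (univ : Finset Γ) (fun x => x • re q) e * G.ep e z =
        2 * (sg q e * G.ep e z) := by
      intro e _
      rw [hsg, ← mul_assoc, ← cnt2 (htt q hq'.1) hq'.2 (hstM q hq) e]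
      rfl
    rw [Finset.sum_congr rfl h2, ← Finset.mul_sum] at h1
    omega
  have hDN : ∀ q ∈ N, ∀ z, ∑ e, sg q e * G.ep e z = 2 := by
    intro q hq z
    have h1 : ∑ e, w (univ : Finset Γ) (fun x => x • re q) e * G.ep e z = 2 := by
      rw [w_ep, hepsum]
    have h2 : ∀ e ∈ (univ : Finset E), w (univ : Finset Γ) (fun x => x • re q) e * G.ep e z =
        sg q e * G.ep e z := by
      intro e _
      rw [hsg, ← cnt1 (hstN q hq) e]
      rfl
    rw [Finset.sum_congr rfl h2] at h1
    exact h1
  have hMN : Disjoint M N := by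
    rw [Finset.disjoint_left]
    intro q h1 h2
    exact (Finset.mem_filter.1 h2).2.2 (Finset.mem_filter.1 h1).2.2
  -- the weighting as a function on orbits
  let a : Q → ℕ := fun q => p (re q)
  have hpa : ∀ e, p e = a (Quotient.mk _ e) := by
    intro e
    have h3 := hre1 (Quotient.mk _ e : Q)
    obtain ⟨g, hg⟩ := mk_eq_iff.1 h3
    show p e = p (re (Quotient.mk _ e))
    rw [← hg]
    exact (hp g e).symm
  have hpsum : ∀ (f : Q → ℕ) e, f (Quotient.mk _ e) = ∑ q, f q * sg q e := by
    intro f e
    rw [Finset.sum_eq_single (Quotient.mk _ e : Q)]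
    · have h1 : sg (Quotient.mk _ e : Q) e = 1 := by
        unfold sg; rw [if_pos rfl]
      rw [h1, mul_one]
    · intro q _ hq
      have h1 : sg q e = 0 := by
        unfold sg; rw [if_neg (Ne.symm hq)]
      rw [h1, mul_zero]
    · intro h; exact absurd (Finset.mem_univ _) h
  -- sums over the star
  have hdiag : ∀ q e, (Quotient.mk _ e : Q) = q →
      ((G.ends e).IsDiag ↔ (G.ends (re q)).IsDiag) := by
    intro q e he
    rw [← hre1 q] at he
    obtain ⟨g, hg⟩ := mk_eq_iff.1 he
    rw [← hg]
    exact isDiag_smul hG g (re q)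
  have hstar : ∀ q, ¬ (G.ends (re q)).IsDiag → ∀ z,
      ∑ e ∈ star G z, sg q e = ∑ e, sg q e * G.ep e z := by
    intro q hq z
    rw [← Finset.sum_filter_add_sum_filter_not univ (fun e => e ∈ star G z),
      Finset.filter_mem_eq_inter, Finset.univ_inter]
    rw [Finset.sum_eq_zero (s := univ.filter (fun e => ¬ e ∈ star G z))]
    · rw [add_zero]
      apply Finset.sum_congr rfl
      intro e he
      rw [ep_of_star he, mul_one]
    · intro e he
      by_cases h : (Quotient.mk _ e : Q) = q
      · have h1 : ¬ (G.ends e).IsDiag := fun h2 => hq ((hdiag q e h).1 h2)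
        have h2 : z ∉ G.ends e := by
          intro h2
          apply (Finset.mem_filter.1 he).2
          unfold star
          rw [Finset.mem_filter]
          exact ⟨Finset.mem_univ _, h2, h1⟩
        rw [G.ep_eq_zero h2, mul_zero]
      · have h1 : sg q e = 0 := by
          unfold sg; rw [if_neg h]
        rw [h1, zero_mul]
  have hstar0 : ∀ q, (G.ends (re q)).IsDiag → ∀ z, ∑ e ∈ star G z, sg q e = 0 := by
    intro q hq z
    apply Finset.sum_eq_zero
    intro e he
    have h1 : ¬ (G.ends e).IsDiag := by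
      unfold star at he
      exact (Finset.mem_filter.1 he).2.2
    unfold sg
    rw [if_neg]
    intro h
    exact h1 ((hdiag q e h).2 hq)
  have htot : ∀ z, ∑ e ∈ star G z, p e = ∑ q ∈ M, a q + 2 * ∑ q ∈ N, a q := by
    intro z
    have h1 : ∀ e ∈ star G z, p e = ∑ q, a q * sg q e := by
      intro e _
      rw [hpa]
      exact hpsum a e
    rw [Finset.sum_congr rfl h1, Finset.sum_comm]
    have h2 : ∀ q ∈ (univ : Finset Q), ∑ e ∈ star G z, a q * sg q e =
        (if q ∈ M then a q else 0) + (if q ∈ N then 2 * a q else 0) := by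
      intro q _
      rw [← Finset.mul_sum]
      by_cases hd : (G.ends (re q)).IsDiag
      · rw [hstar0 q hd, if_neg (fun h => (Finset.mem_filter.1 h).2.1 hd),
          if_neg (fun h => (Finset.mem_filter.1 h).2.1 hd)]
        ring
      · by_cases ht : tt q • re q = re q
        · have hM : q ∈ M := Finset.mem_filter.2 ⟨Finset.mem_univ _, hd, ht⟩
          have hN : q ∉ N := Finset.disjoint_left.1 hMN hM
          rw [hstar q hd, hDM q hM, if_pos hM, if_neg hN]
          ring
        · have hN : q ∈ N := Finset.mem_filter.2 ⟨Finset.mem_univ _, hd, ht⟩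
          have hM : q ∉ M := Finset.disjoint_right.1 hMN hN
          rw [hstar q hd, hDN q hN, if_pos hN, if_neg hM]
          ring
    rw [Finset.sum_congr rfl h2, Finset.sum_add_distrib, ← Finset.sum_filter,
      ← Finset.sum_filter, Finset.filter_mem_eq_inter, Finset.filter_mem_eq_inter,
      Finset.univ_inter, Finset.univ_inter, Finset.mul_sum]
  -- the combinatorial lemma
  have key := semi M N (fun f : Q → ℕ => EC G (fun e => f (Quotient.mk _ e))) (EC.zero G)
    (fun f g hf hg => hf.add hg) ?_ ?_ ?_ hMN _ a rfl ?_ ?_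
  · exact key.congr (fun e => (hpa e).symm)
  · -- two matchings
    intro i hi i' hi' hne
    have hsi : ∀ (q : Q) (k : ℕ) (e : E), (Pi.single q k : Q → ℕ) (Quotient.mk _ e) =
        k * sg q e := by
      intro q k e
      unfold sg
      by_cases h : (Quotient.mk _ e : Q) = q
      · rw [h, Pi.single_eq_same, if_pos rfl, mul_one]
      · rw [Pi.single_eq_of_ne h, if_neg h, mul_zero]
    apply EC.of_le_one
    · intro e
      simp only [Pi.add_apply, hsi, one_mul]
      unfold sg
      by_cases h : (Quotient.mk _ e : Q) = i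
      · rw [if_pos h, if_neg (fun h2 => hne (h.symm.trans h2))]
      · rw [if_neg h]
        split_ifs <;> norm_num
    · intro z
      simp only [Pi.add_apply, hsi, one_mul, add_mul, Finset.sum_add_distrib]
      rw [hDM i hi z, hDM i' hi' z]
      exact ⟨1, rfl⟩
  · -- mixed
    intro i hi j hj
    have hsi : ∀ (q : Q) (k : ℕ) (e : E), (Pi.single q k : Q → ℕ) (Quotient.mk _ e) =
        k * sg q e := by
      intro q k e
      unfold sg
      by_cases h : (Quotient.mk _ e : Q) = q
      · rw [h, Pi.single_eq_same, if_pos rfl, mul_one]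
      · rw [Pi.single_eq_of_ne h, if_neg h, mul_zero]
    have hi' := (Finset.mem_filter.1 hi).2
    have hj' := (Finset.mem_filter.1 hj).2
    have h1 := ec_mix hG hfix (hre2 i) hi'.2 (htt i hi'.1) (hre2 j) (htt j hj'.1) (hstN j hj)
    refine h1.congr ?_
    intro e
    simp only [Pi.add_apply, hsi, one_mul, hsg]
  · -- the others
    intro j hj
    have hsi : ∀ (q : Q) (k : ℕ) (e : E), (Pi.single q k : Q → ℕ) (Quotient.mk _ e) =
        k * sg q e := by
      intro q k e
      unfold sg
      by_cases h : (Quotient.mk _ e : Q) = q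
      · rw [h, Pi.single_eq_same, if_pos rfl, mul_one]
      · rw [Pi.single_eq_of_ne h, if_neg h, mul_zero]
    by_cases hd : (G.ends (re j)).IsDiag
    · refine (ec_loops hG hd).congr ?_
      intro e
      rw [hsi, one_mul, hsg]
    · have hN : j ∈ N := by
        refine Finset.mem_filter.2 ⟨Finset.mem_univ _, hd, ?_⟩
        intro ht
        exact hj (Finset.mem_filter.2 ⟨Finset.mem_univ _, hd, ht⟩)
      apply EC.of_le_one
      · intro e
        rw [hsi, one_mul]
        unfold sg
        split_ifs <;> norm_num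
      · intro z
        simp only [hsi, one_mul]
        rw [hDN j hN z]
        exact ⟨1, rfl⟩
  · have h1 := hloc.1 v0
    rw [htot, Nat.even_add] at h1
    exact h1.2 ⟨_, two_mul _⟩
  · intro i hi
    have hi' := (Finset.mem_filter.1 hi).2
    have h1 : re i ∈ star G v0 := by
      unfold star
      rw [Finset.mem_filter]
      refine ⟨Finset.mem_univ _, ?_, hi'.1⟩
      rw [hre2]
      simp
    have h2 := hloc.2 v0 (re i) h1
    rw [htot] at h2
    exact h2

/-- the theorem -/
theorem main {G : MGraph V E}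
    (hG : ∀ (g : Γ) (e : E), G.ends (g • e) = (G.ends e).map (g • ·))
    (htr : ∀ v w : V, ∃ g : Γ, g • v = w)
    (hfree : ∀ (g : Γ) (v : V) (e : E), v ∈ G.ends e → ¬ (G.ends e).IsDiag → g • v = v →
      g • e = e → g = 1)
    {p : E → ℕ} (hp : ∀ (g : Γ) (e : E), p (g • e) = p e) :
    (InIntCone G p ↔ InCone G p ∧ InLat G p) ∧ (InIntCone G p ↔ Loc G p) := by
  have h1 : InIntCone G p → InCone G p ∧ InLat G p := cone_lat_of_intCone G p
  have h2 : InCone G p ∧ InLat G p → Loc G p := fun h => loc_of_cone_lat h.1 h.2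
  have h3 : Loc G p → InIntCone G p := by
    intro hloc
    apply EC.cover
    by_cases hV : Nonempty V
    · obtain ⟨v0⟩ := hV
      by_cases hst : ∃ (v : V) (g : Γ), g • v = v ∧ g ≠ 1
      · obtain ⟨v, g, h4, h5⟩ := hst
        exact cover_stab hG htr hfree hp hloc h4 h5
      · push Not at hst
        exact cover_regular hG htr (fun g v h => hst v g h) hp hloc v0
    · refine (EC.zero G).congr ?_
      intro e
      exfalso
      apply hV
      induction G.ends e using Sym2.ind with
      | _ a b => exact ⟨a⟩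
  exact ⟨⟨h1, fun h => h3 (h2 h)⟩, ⟨fun h => h2 (h1 h), h3⟩⟩

end Pool.Agent.Q213.SC
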